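import Mathlib

/-!
# The smallest possible size of a largest odd induced subgraph of a cograph

For every `n ≥ 2` the minimum of `mos G` over all cographs `G` on `n` vertices without isolated
vertices is `2 ⌈n / 6⌉`.

Lower bound.  A cograph with at least two vertices is disconnected or a join (Seinsche).  In a join
of `A` and `B` choose subsets `A'`, `B'` of odd order missing at most one vertex each.  A parity
argument (Gallai) splits `A'` into a part with all degrees even and a part with all degrees odd, and
likewise `B'`; the union of the two even parts and the union of the two odd parts are both odd.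
Upper bound: disjoint unions of subgraphs of `K_{2,2,2}`.
-/

set_option autoImplicit false

open Finset
open scoped Classical

namespace Pool.Agent.Results.MP_007251_co.MinOddInduced

/-- every vertex of `S` has odd degree in the subgraph of `G` induced on `S` -/
def OddOn {V : Type} (G : SimpleGraph V) (S : Finset V) : Prop :=
  ∀ v ∈ S, Odd (S.filter (fun w => G.Adj v w)).card

/-- the largest number of vertices of an odd induced subgraph -/
noncomputable def mos {n : ℕ} (G : SimpleGraph (Fin n)) : ℕ :=
  sSup {k : ℕ | ∃ S : Finset (Fin n), OddOn G S ∧ S.card = k}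

/-- a cograph: there is no induced path on four vertices -/
def IsCograph {V : Type} (G : SimpleGraph V) : Prop :=
  IsEmpty (SimpleGraph.pathGraph 4 ↪g G)

/-- the minimum of `mos G` over all cographs `G` on `n` vertices without isolated vertices -/
noncomputable def m (n : ℕ) : ℕ :=
  sInf {k : ℕ | ∃ G : SimpleGraph (Fin n), IsCograph G ∧ (∀ v, ∃ w, G.Adj v w) ∧ mos G = k}

/-! ### Seinsche's theorem -/

section Seinsche

variable {V : Type} {G : SimpleGraph V} {S T : Finset V}

/-- the subgraph on `S` is connected -/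
def Conn (G : SimpleGraph V) (S : Finset V) : Prop :=
  ∀ X ⊆ S, X.Nonempty → X ≠ S → ∃ u ∈ X, ∃ v ∈ S \ X, G.Adj u v

/-- no induced path on four vertices inside `S` -/
def NoP4 (G : SimpleGraph V) (S : Finset V) : Prop := ∀ a ∈ S, ∀ b ∈ S, ∀ c ∈ S, ∀ d ∈ S,
  G.Adj a b → G.Adj b c → G.Adj c d → ¬G.Adj a c → ¬G.Adj a d → ¬G.Adj b d → a ≠ c → b ≠ d → False

theorem NoP4.compl (h : NoP4 G S) : NoP4 Gᶜ S := by
  intro a ha b hb c hc d hd hab hbc hcd hac had hbd nac nbd
  rw [SimpleGraph.compl_adj] at hab hbc hcd hac had hbd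
  have h1 : G.Adj a c := by
    by_contra hh; exact hac ⟨nac, hh⟩
  have h2 : G.Adj b d := by
    by_contra hh; exact hbd ⟨nbd, hh⟩
  have h3 : G.Adj a d := by
    by_contra hh
    apply had
    refine ⟨?_, hh⟩
    rintro rfl
    exact hab.2 h2.symm
  exact h b hb d hd a ha c hc h2 h3.symm h1 (fun hh => hab.2 hh.symm) hbc.2 (fun hh => hcd.2 hh.symm)
    (fun e => hab.1 e.symm) (fun e => hcd.1 e.symm)

theorem step_aux (v : V) (hv : v ∈ S) (X Y : Finset V) (hXY : X ∪ Y = S.erase v) (hdis : Disjoint X Y)
    (hno : ∀ x ∈ X, ∀ y ∈ Y, ¬G.Adj x y) (hY : Y.Nonempty) (n : V) (hn : n ∈ X) (hvn : ¬G.Adj v n)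
    (hc : Conn G S) (h : NoP4 G S) : False := by
  have hXS : ∀ x ∈ X, x ∈ S ∧ x ≠ v := by
    intro x hx
    have : x ∈ S.erase v := by rw [← hXY]; exact Finset.mem_union_left _ hx
    exact ⟨Finset.mem_of_mem_erase this, Finset.ne_of_mem_erase this⟩
  have hYS : ∀ x ∈ Y, x ∈ S ∧ x ≠ v := by
    intro x hx
    have : x ∈ S.erase v := by rw [← hXY]; exact Finset.mem_union_right _ hx
    exact ⟨Finset.mem_of_mem_erase this, Finset.ne_of_mem_erase this⟩
  obtain ⟨x, hx, w, hw, hxw⟩ := hc (X.filter (fun x => ¬G.Adj v x))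
    (fun x hx => (hXS x (Finset.mem_filter.1 hx).1).1) ⟨n, Finset.mem_filter.2 ⟨hn, hvn⟩⟩
    (fun e => by
      have : v ∈ X.filter (fun x => ¬G.Adj v x) := by rw [e]; exact hv
      exact (hXS v (Finset.mem_filter.1 this).1).2 rfl)
  obtain ⟨hxX, hvx⟩ := Finset.mem_filter.1 hx
  obtain ⟨hwS, hwN⟩ := Finset.mem_sdiff.1 hw
  have hwv : w ≠ v := by
    rintro rfl
    exact hvx hxw.symm
  have hwXY : w ∈ X ∪ Y := by rw [hXY]; exact Finset.mem_erase.2 ⟨hwv, hwS⟩
  have hwX : w ∈ X := by
    rcases Finset.mem_union.1 hwXY with h1 | h1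
    · exact h1
    · exact absurd hxw (hno x hxX w h1)
  have hvw : G.Adj v w := by
    by_contra hh
    exact hwN (Finset.mem_filter.2 ⟨hwX, hh⟩)
  obtain ⟨y, hy, z, hz, hyz⟩ := hc Y (fun y hy => (hYS y hy).1) hY
    (fun e => (hYS v (by rw [e]; exact hv)).2 rfl)
  obtain ⟨hzS, hzY⟩ := Finset.mem_sdiff.1 hz
  have hzv : z = v := by
    by_contra hne
    have : z ∈ X ∪ Y := by rw [hXY]; exact Finset.mem_erase.2 ⟨hne, hzS⟩
    rcases Finset.mem_union.1 this with h1 | h1
    · exact hno z h1 y hy hyz.symm
    · exact hzY h1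
  subst hzv
  exact h y (hYS y hy).1 z hv w hwS x (hXS x hxX).1 hyz hvw hxw.symm
    (fun hh => hno w hwX y hy hh.symm) (fun hh => hno x hxX y hy hh.symm) hvx
    (fun e => Finset.disjoint_left.1 hdis hwX (e ▸ hy)) (fun e => (hXS x hxX).2 e.symm)

theorem step (v : V) (hv : v ∈ S) (hd : ¬Conn G (S.erase v)) (h : NoP4 G S) (hne : (S.erase v).Nonempty) :
    ¬Conn G S ∨ ¬Conn Gᶜ S := by
  by_contra hcon
  push Not at hcon
  obtain ⟨hc, hc'⟩ := hcon
  unfold Conn at hd
  push Not at hd
  obtain ⟨X, hXS, hXne, hXS', hno⟩ := hd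
  obtain ⟨u, hu, n, hn, hun⟩ := hc' {v} (by simpa using hv) (Finset.singleton_nonempty v) (fun e => by
    obtain ⟨w, hw⟩ := hne
    have h1 := Finset.mem_of_mem_erase hw
    rw [← e] at h1
    exact Finset.ne_of_mem_erase hw (Finset.mem_singleton.1 h1))
  rw [Finset.mem_singleton.1 hu] at hun
  obtain ⟨hnS, hnv⟩ := Finset.mem_sdiff.1 hn
  have hn' : n ∈ S.erase v := Finset.mem_erase.2 ⟨fun e => hnv (by simp [e]), hnS⟩
  have hvn : ¬G.Adj v n := (SimpleGraph.compl_adj G v n |>.1 hun).2
  have hYne : (S.erase v \ X).Nonempty := by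
    rw [Finset.sdiff_nonempty]
    intro hsub
    exact hXS' (Finset.Subset.antisymm hXS hsub)
  by_cases hnX : n ∈ X
  · exact step_aux v hv X (S.erase v \ X) (Finset.union_sdiff_of_subset hXS) Finset.disjoint_sdiff
      (fun x hx y hy => hno x hx y hy) hYne n hnX hvn hc h
  · exact step_aux v hv (S.erase v \ X) X (Finset.sdiff_union_of_subset hXS) Finset.sdiff_disjoint
      (fun x hx y hy hh => hno y hy x hx hh.symm) hXne n (Finset.mem_sdiff.2 ⟨hn', hnX⟩) hvn hc h

theorem seinsche_aux (n : ℕ) : ∀ (G : SimpleGraph V) (S : Finset V), S.card = n + 2 → NoP4 G S →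
    ¬Conn G S ∨ ¬Conn Gᶜ S := by
  induction n with
  | zero =>
    intro G S hS _
    obtain ⟨x, y, hxy, rfl⟩ := Finset.card_eq_two.1 hS
    by_contra hcon
    push Not at hcon
    obtain ⟨hc, hc'⟩ := hcon
    have hsub : ({x} : Finset V) ⊆ {x, y} := by simp
    have hne : ({x} : Finset V) ≠ {x, y} := by
      intro e
      have : y ∈ ({x} : Finset V) := by rw [e]; simp
      exact hxy (Finset.mem_singleton.1 this).symm
    obtain ⟨u, hu, w, hw, huw⟩ := hc {x} hsub (Finset.singleton_nonempty x) hne
    obtain ⟨u', hu', w', hw', huw'⟩ := hc' {x} hsub (Finset.singleton_nonempty x) hne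
    have e1 : u = x := Finset.mem_singleton.1 hu
    have e2 : u' = x := Finset.mem_singleton.1 hu'
    have e3 : w = y := by
      obtain ⟨h1, h2⟩ := Finset.mem_sdiff.1 hw
      simp at h1 h2
      tauto
    have e4 : w' = y := by
      obtain ⟨h1, h2⟩ := Finset.mem_sdiff.1 hw'
      simp at h1 h2
      tauto
    subst e1 e3
    rw [e2, e4] at huw'
    exact (SimpleGraph.compl_adj G _ _ |>.1 huw').2 huw
  | succ n ih =>
    intro G S hS h
    have hSne : S.Nonempty := by
      rw [← Finset.card_pos]; omega
    obtain ⟨v, hv⟩ := hSne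
    have hcard : (S.erase v).card = n + 2 := by
      rw [Finset.card_erase_of_mem hv, hS]; omega
    have hne : (S.erase v).Nonempty := by
      rw [← Finset.card_pos]; omega
    have h' : NoP4 G (S.erase v) := fun a ha b hb c hc d hd =>
      h a (Finset.mem_of_mem_erase ha) b (Finset.mem_of_mem_erase hb) c (Finset.mem_of_mem_erase hc)
        d (Finset.mem_of_mem_erase hd)
    rcases ih G (S.erase v) hcard h' with h1 | h1
    · exact step v hv h1 h hne
    · have := step (G := Gᶜ) v hv h1 h.compl hne
      rw [compl_compl] at this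
      exact this.symm

theorem seinsche (hS : 2 ≤ S.card) (h : NoP4 G S) : ¬Conn G S ∨ ¬Conn Gᶜ S :=
  seinsche_aux (S.card - 2) G S (by omega) h

end Seinsche

/-! ### The parity argument -/

section Parity

variable {V : Type}

/-- the symmetric linear system of the even partition, solved by induction -/
theorem even_split (S : Finset V) : ∀ a : V → V → ZMod 2, (∀ x y, a x y = a y x) →
    ∃ E ⊆ S, (∀ x ∈ E, ∑ w ∈ E, a x w = a x x) ∧ (∀ x ∈ S \ E, ∑ w ∈ S \ E, a x w = a x x) := by
  induction' h : S.card with n ih generalizing S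
  · intro a _
    rw [card_eq_zero] at h
    subst h
    exact ⟨∅, Subset.refl _, by simp, by simp⟩
  · intro a hs
    by_cases hall : ∀ x ∈ S, ∑ w ∈ S, a x w = a x x
    · exact ⟨S, Subset.refl _, hall, by simp⟩
    · push Not at hall
      obtain ⟨v, hv, hne⟩ := hall
      have hv1 : ∑ w ∈ S.erase v, a v w = 1 := by
        rw [← Finset.add_sum_erase S (fun w => a v w) hv] at hne
        have h2 : ∀ s t : ZMod 2, t + s ≠ t → s = 1 := by decide
        exact h2 _ _ hne
      obtain ⟨E, hE, h1, h2⟩ := ih (S.erase v) (by rw [card_erase_of_mem hv, h]; rfl)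
        (fun x y => a x y + a v x * a v y) (fun x y => by rw [hs x y, mul_comm])
      set O := S.erase v \ E with hO
      have hvE : v ∉ E := fun hh => notMem_erase v S (hE hh)
      have hvO : v ∉ O := fun hh => notMem_erase v S (mem_sdiff.1 hh).1
      have hsum : ∑ w ∈ E, a v w + ∑ w ∈ O, a v w = 1 := by
        rw [← hv1, ← Finset.sum_sdiff hE, add_comm]
      have sq : ∀ s : ZMod 2, s * s = s := by decide
      have hE1 : ∀ x ∈ E, ∑ w ∈ E, a x w + a v x * ∑ w ∈ E, a v w = a x x + a v x := by
        intro x hx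
        have := h1 x hx
        rw [Finset.sum_add_distrib, ← Finset.mul_sum, sq] at this
        exact this
      have hO1 : ∀ x ∈ O, ∑ w ∈ O, a x w + a v x * ∑ w ∈ O, a v w = a x x + a v x := by
        intro x hx
        have := h2 x hx
        rw [Finset.sum_add_distrib, ← Finset.mul_sum, sq] at this
        exact this
      have hcases : ∀ s t : ZMod 2, s + t = 1 → (s = 1 ∧ t = 0) ∨ (s = 0 ∧ t = 1) := by decide
      have hcan : ∀ s t u : ZMod 2, s + t = u + t → s = u := by decide
      have hcan2 : ∀ s t u : ZMod 2, s = u + t → t + s = u := by decide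
      rcases hcases _ _ hsum with ⟨hp, hq⟩ | ⟨hp, hq⟩
      · have hSE : S \ E = insert v O := by
          ext x
          simp only [mem_sdiff, hO, mem_insert, mem_erase]
          constructor
          · rintro ⟨h3, h4⟩
            by_cases hxv : x = v
            · left; exact hxv
            · right; exact ⟨⟨hxv, h3⟩, h4⟩
          · rintro (rfl | ⟨⟨_, h3⟩, h4⟩)
            · exact ⟨hv, hvE⟩
            · exact ⟨h3, h4⟩
        refine ⟨E, hE.trans (erase_subset _ _), ?_, ?_⟩
        · intro x hx
          have := hE1 x hx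
          rw [hp, mul_one] at this
          exact hcan _ _ _ this
        · rw [hSE]
          intro x hx
          rw [sum_insert hvO]
          rcases mem_insert.1 hx with rfl | hx
          · rw [hq, add_zero]
          · have := hO1 x hx
            rw [hq, mul_zero, add_zero] at this
            rw [hs x v]
            exact hcan2 _ _ _ this
      · have hSE : S \ insert v E = O := by
          ext x
          simp only [mem_sdiff, hO, mem_insert, mem_erase]
          tauto
        refine ⟨insert v E, ?_, ?_, ?_⟩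
        · intro x hx
          rcases mem_insert.1 hx with rfl | hx
          · exact hv
          · exact mem_of_mem_erase (hE hx)
        · intro x hx
          rw [sum_insert hvE]
          rcases mem_insert.1 hx with rfl | hx
          · rw [hp, add_zero]
          · have := hE1 x hx
            rw [hp, mul_zero, add_zero] at this
            rw [hs x v]
            exact hcan2 _ _ _ this
        · rw [hSE]
          intro x hx
          have := hO1 x hx
          rw [hq, mul_one] at this
          exact hcan _ _ _ this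

/-- handshake lemma for symmetric matrices -/
theorem handshake (a : V → V → ZMod 2) (hs : ∀ x y, a x y = a y x) (S : Finset V) :
    ∑ x ∈ S, ∑ w ∈ S, a x w = ∑ x ∈ S, a x x := by
  induction S using Finset.induction_on with
  | empty => simp
  | insert v S hv ih =>
    rw [sum_insert hv, sum_insert hv, sum_insert hv]
    have h1 : ∑ x ∈ S, ∑ w ∈ insert v S, a x w = ∑ x ∈ S, a v x + ∑ x ∈ S, ∑ w ∈ S, a x w := by
      rw [← sum_add_distrib]
      apply sum_congr rfl
      intro x _
      rw [sum_insert hv, hs x v]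
    rw [h1, ih]
    have h2 : ∀ p q r : ZMod 2, p + q + (q + r) = p + r := by decide
    exact h2 _ _ _

/-- the adjacency matrix modulo 2 -/
noncomputable def am (G : SimpleGraph V) (x y : V) : ZMod 2 := if G.Adj x y then 1 else 0

theorem am_symm (G : SimpleGraph V) (x y : V) : am G x y = am G y x := by
  unfold am
  rw [G.adj_comm]

theorem am_self (G : SimpleGraph V) (x : V) : am G x x = 0 := by
  unfold am
  rw [if_neg (G.irrefl)]

theorem sum_am (G : SimpleGraph V) (S : Finset V) (x : V) :
    ∑ w ∈ S, am G x w = ((S.filter (fun w => G.Adj x w)).card : ZMod 2) := by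
  unfold am
  rw [Finset.sum_ite]
  simp

theorem even_iff (k : ℕ) : ((k : ℕ) : ZMod 2) = 0 ↔ Even k := ZMod.natCast_eq_zero_iff_even

theorem odd_iff (k : ℕ) : ((k : ℕ) : ZMod 2) = 1 ↔ Odd k := ZMod.natCast_eq_one_iff_odd

theorem oddOn_even_card {G : SimpleGraph V} {S : Finset V} (h : OddOn G S) : Even S.card := by
  rw [← even_iff]
  have h1 := handshake (am G) (am_symm G) S
  simp only [am_self, sum_const_zero] at h1
  rw [← h1]
  have h2 : ∀ x ∈ S, ∑ w ∈ S, am G x w = 1 := by
    intro x hx
    rw [sum_am, odd_iff]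
    exact h x hx
  rw [Finset.sum_congr rfl h2]
  simp

/-- all degrees even on `S` -/
def EvenOn (G : SimpleGraph V) (S : Finset V) : Prop :=
  ∀ v ∈ S, Even (S.filter (fun w => G.Adj v w)).card

/-- If some vertex outside of `S` is adjacent to all vertices of `S`, then `S` splits into an even
part and an odd part. -/
theorem even_odd_split (G : SimpleGraph V) (S : Finset V) (b : V) (hb : b ∉ S)
    (hadj : ∀ x ∈ S, G.Adj b x) : ∃ E ⊆ S, EvenOn G E ∧ OddOn G (S \ E) := by
  obtain ⟨E, hE, h1, h2⟩ := even_split (insert b S) (am G) (am_symm G)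
  -- the part containing `b` gives the odd part
  have key : ∀ P : Finset V, P ⊆ insert b S → b ∈ P → (∀ x ∈ P, ∑ w ∈ P, am G x w = am G x x) →
      OddOn G (P.erase b) := by
    intro P hPS hbP hP x hx
    have hx1 := mem_of_mem_erase hx
    have hx2 := ne_of_mem_erase hx
    have h3 := hP x hx1
    rw [am_self, ← Finset.add_sum_erase P _ hbP, sum_am] at h3
    have hxS : x ∈ S := by
      rcases mem_insert.1 (hPS hx1) with h | h
      · exact absurd h hx2
      · exact h
    have h4 : am G x b = 1 := by
      unfold am; rw [if_pos (hadj x hxS).symm]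
    rw [h4] at h3
    rw [← odd_iff]
    have h5 : ∀ s : ZMod 2, 1 + s = 0 → s = 1 := by decide
    exact h5 _ h3
  have key2 : ∀ P : Finset V, (∀ x ∈ P, ∑ w ∈ P, am G x w = am G x x) → EvenOn G P := by
    intro P hP x hx
    have := hP x hx
    rw [am_self, sum_am, even_iff] at this
    exact this
  by_cases hbE : b ∈ E
  · refine ⟨insert b S \ E, ?_, key2 _ h2, ?_⟩
    · intro x hx
      obtain ⟨hx1, hx2⟩ := mem_sdiff.1 hx
      rcases mem_insert.1 hx1 with rfl | h
      · exact absurd hbE hx2
      · exact h
    · have e : S \ (insert b S \ E) = E.erase b := by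
        ext x
        simp only [mem_sdiff, mem_insert, mem_erase]
        constructor
        · rintro ⟨h3, h4⟩
          refine ⟨?_, ?_⟩
          · rintro rfl; exact hb h3
          · by_contra h5; exact h4 ⟨Or.inr h3, h5⟩
        · rintro ⟨h3, h4⟩
          have := hE h4
          rw [mem_insert] at this
          exact ⟨this.resolve_left h3, fun h5 => h5.2 h4⟩
      rw [e]
      exact key E hE hbE h1
  · refine ⟨E, ?_, key2 _ h1, ?_⟩
    · intro x hx
      rcases mem_insert.1 (hE hx) with rfl | h
      · exact absurd hx hbE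
      · exact h
    · have e : S \ E = (insert b S \ E).erase b := by
        ext x
        simp only [mem_sdiff, mem_insert, mem_erase]
        constructor
        · rintro ⟨h3, h4⟩
          refine ⟨?_, Or.inr h3, h4⟩
          rintro rfl; exact hb h3
        · rintro ⟨h3, h4, h5⟩
          exact ⟨h4.resolve_left h3, h5⟩
      rw [e]
      exact key _ sdiff_subset (mem_sdiff.2 ⟨mem_insert_self _ _, hbE⟩) h2

theorem odd_subset (A : Finset V) (hA : A.Nonempty) :
    ∃ A' ⊆ A, Odd A'.card ∧ A.card ≤ A'.card + 1 := by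
  rcases Nat.even_or_odd A.card with h | h
  · obtain ⟨x, hx⟩ := hA
    refine ⟨A.erase x, erase_subset _ _, ?_, ?_⟩
    · rw [card_erase_of_mem hx]
      have hp : 0 < A.card := card_pos.2 ⟨x, hx⟩
      obtain ⟨r, hr⟩ := h
      exact ⟨r - 1, by omega⟩
    · rw [card_erase_of_mem hx]; omega
  · exact ⟨A, Subset.refl _, h, by omega⟩

theorem deg_union {G : SimpleGraph V} {A B : Finset V} (hd : Disjoint A B) (x : V)
    (h : ∀ y ∈ B, G.Adj x y) : ((A ∪ B).filter (fun w => G.Adj x w)).card =
      (A.filter (fun w => G.Adj x w)).card + B.card := by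
  rw [filter_union, card_union_of_disjoint (disjoint_filter_filter hd)]
  congr 2
  exact filter_true_of_mem h

/-- large odd induced subgraphs in joins -/
theorem join_bound (G : SimpleGraph V) (A B : Finset V) (hA : A.Nonempty) (hB : B.Nonempty)
    (hd : Disjoint A B) (hj : ∀ x ∈ A, ∀ y ∈ B, G.Adj x y) :
    ∃ T ⊆ A ∪ B, OddOn G T ∧ 2 ≤ T.card ∧ (A ∪ B).card ≤ 2 * T.card + 2 := by
  obtain ⟨A', hA', hAo, hAc⟩ := odd_subset A hA
  obtain ⟨B', hB', hBo, hBc⟩ := odd_subset B hB
  have hd' : Disjoint A' B' := disjoint_of_subset_left hA' (disjoint_of_subset_right hB' hd)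
  obtain ⟨b, hb⟩ : B'.Nonempty := card_pos.1 hBo.pos
  obtain ⟨a, ha⟩ : A'.Nonempty := card_pos.1 hAo.pos
  obtain ⟨E, hE, hE1, hE2⟩ := even_odd_split G A' b (fun h => disjoint_left.1 hd' h hb)
    (fun x hx => (hj x (hA' hx) b (hB' hb)).symm)
  obtain ⟨F, hF, hF1, hF2⟩ := even_odd_split G B' a (fun h => disjoint_left.1 hd' ha h)
    (fun x hx => hj a (hA' ha) x (hB' hx))
  have cE : (A' \ E).card + E.card = A'.card := card_sdiff_add_card_eq_card hE
  have cF : (B' \ F).card + F.card = B'.card := card_sdiff_add_card_eq_card hF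
  have eE := oddOn_even_card hE2
  have eF := oddOn_even_card hF2
  have oE : Odd E.card := by
    rw [← cE] at hAo
    rcases Nat.even_or_odd E.card with h | h
    · exact absurd (eE.add h) (Nat.not_even_iff_odd.2 hAo)
    · exact h
  have oF : Odd F.card := by
    rw [← cF] at hBo
    rcases Nat.even_or_odd F.card with h | h
    · exact absurd (eF.add h) (Nat.not_even_iff_odd.2 hBo)
    · exact h
  have hEF : Disjoint E F := disjoint_of_subset_left hE (disjoint_of_subset_right hF hd')
  have hOO : Disjoint (A' \ E) (B' \ F) :=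
    disjoint_of_subset_left sdiff_subset (disjoint_of_subset_right sdiff_subset hd')
  have aE : ∀ x ∈ E, ∀ y ∈ F, G.Adj x y := fun x hx y hy => hj x (hA' (hE hx)) y (hB' (hF hy))
  have aO : ∀ x ∈ A' \ E, ∀ y ∈ B' \ F, G.Adj x y := fun x hx y hy =>
    hj x (hA' (mem_sdiff.1 hx).1) y (hB' (mem_sdiff.1 hy).1)
  have T1 : OddOn G (E ∪ F) := by
    intro x hx
    rcases mem_union.1 hx with hx | hx
    · rw [deg_union hEF x (aE x hx)]
      exact (hE1 x hx).add_odd oF
    · rw [union_comm, deg_union hEF.symm x (fun y hy => (aE y hy x hx).symm)]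
      exact (hF1 x hx).add_odd oE
  have T2 : OddOn G ((A' \ E) ∪ (B' \ F)) := by
    intro x hx
    rcases mem_union.1 hx with hx | hx
    · rw [deg_union hOO x (aO x hx)]
      exact (hE2 x hx).add_even eF
    · rw [union_comm, deg_union hOO.symm x (fun y hy => (aO y hy x hx).symm)]
      exact (hF2 x hx).add_even eE
  have c1 : (E ∪ F).card = E.card + F.card := card_union_of_disjoint hEF
  have c2 : ((A' \ E) ∪ (B' \ F)).card = (A' \ E).card + (B' \ F).card := card_union_of_disjoint hOO
  have c3 : (A ∪ B).card = A.card + B.card := card_union_of_disjoint hd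
  have pE := oE.pos
  have pF := oF.pos
  by_cases hle : ((A' \ E) ∪ (B' \ F)).card ≤ (E ∪ F).card
  · exact ⟨E ∪ F, union_subset_union (hE.trans hA') (hF.trans hB'), T1, by omega, by omega⟩
  · exact ⟨(A' \ E) ∪ (B' \ F), union_subset_union (sdiff_subset.trans hA')
      (sdiff_subset.trans hB'), T2, by omega, by omega⟩

/-- the lower bound -/
theorem lower (n : ℕ) : ∀ (G : SimpleGraph V) (S : Finset V), S.card = n → NoP4 G S →
    (∀ v ∈ S, ∃ w ∈ S, G.Adj v w) → ∃ T ⊆ S, OddOn G T ∧ S.card ≤ 3 * T.card := by
  induction n using Nat.strong_induction_on with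
  | _ n ih =>
    intro G S hS hP hiso
    rcases S.eq_empty_or_nonempty with rfl | ⟨v, hv⟩
    · exact ⟨∅, Subset.refl _, by intro v hv; simp at hv, by simp⟩
    · obtain ⟨w, hw, hvw⟩ := hiso v hv
      have h2 : 2 ≤ S.card := by
        have : ({v, w} : Finset V) ⊆ S := by
          intro x hx
          rcases mem_insert.1 hx with rfl | hx
          · exact hv
          · rw [mem_singleton] at hx; rw [hx]; exact hw
        calc 2 = ({v, w} : Finset V).card := (card_pair hvw.ne).symm
          _ ≤ S.card := card_le_card this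
      rcases seinsche h2 hP with hc | hc
      · unfold Conn at hc
        push Not at hc
        obtain ⟨X, hX, hXne, hXS, hno⟩ := hc
        have hYne : (S \ X).Nonempty := by
          rw [sdiff_nonempty]
          intro h; exact hXS (Subset.antisymm hX h)
        have hcX : X.card < n := by
          rw [← hS]; exact card_lt_card (ssubset_of_subset_of_ne hX hXS)
        have hcY : (S \ X).card < n := by
          have := card_sdiff_add_card_eq_card hX
          have h3 := card_pos.2 hXne
          omega
        obtain ⟨T1, hT1, o1, b1⟩ := ih X.card hcX G X rfl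
          (fun a ha b hb c hc d hd => hP a (hX ha) b (hX hb) c (hX hc) d (hX hd)) (by
            intro x hx
            obtain ⟨y, hy, hxy⟩ := hiso x (hX hx)
            by_cases h : y ∈ X
            · exact ⟨y, h, hxy⟩
            · exact absurd hxy (hno x hx y (mem_sdiff.2 ⟨hy, h⟩)))
        obtain ⟨T2, hT2, o2, b2⟩ := ih (S \ X).card hcY G (S \ X) rfl
          (fun a ha b hb c hc d hd => hP a (mem_sdiff.1 ha).1 b (mem_sdiff.1 hb).1 c
            (mem_sdiff.1 hc).1 d (mem_sdiff.1 hd).1) (by
            intro x hx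
            obtain ⟨y, hy, hxy⟩ := hiso x (mem_sdiff.1 hx).1
            by_cases h : y ∈ X
            · exact absurd hxy.symm (hno y h x hx)
            · exact ⟨y, mem_sdiff.2 ⟨hy, h⟩, hxy⟩)
        have hdis : Disjoint T1 T2 := disjoint_of_subset_left hT1
          (disjoint_of_subset_right hT2 disjoint_sdiff)
        refine ⟨T1 ∪ T2, union_subset (hT1.trans hX) (hT2.trans sdiff_subset), ?_, ?_⟩
        · intro x hx
          rcases mem_union.1 hx with hx | hx
          · have e : (T1 ∪ T2).filter (fun w => G.Adj x w) = T1.filter (fun w => G.Adj x w) := by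
              rw [filter_union]
              have : T2.filter (fun w => G.Adj x w) = ∅ := by
                apply filter_false_of_mem
                intro y hy
                exact hno x (hT1 hx) y (hT2 hy)
              rw [this, union_empty]
            rw [e]; exact o1 x hx
          · have e : (T1 ∪ T2).filter (fun w => G.Adj x w) = T2.filter (fun w => G.Adj x w) := by
              rw [filter_union]
              have : T1.filter (fun w => G.Adj x w) = ∅ := by
                apply filter_false_of_mem
                intro y hy hxy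
                exact hno y (hT1 hy) x (hT2 hx) hxy.symm
              rw [this, empty_union]
            rw [e]; exact o2 x hx
        · rw [card_union_of_disjoint hdis]
          have := card_sdiff_add_card_eq_card hX
          omega
      · unfold Conn at hc
        push Not at hc
        obtain ⟨X, hX, hXne, hXS, hno⟩ := hc
        have hYne : (S \ X).Nonempty := by
          rw [sdiff_nonempty]
          intro h; exact hXS (Subset.antisymm hX h)
        have hj : ∀ x ∈ X, ∀ y ∈ S \ X, G.Adj x y := by
          intro x hx y hy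
          by_contra h
          apply hno x hx y hy
          rw [SimpleGraph.compl_adj]
          refine ⟨?_, h⟩
          rintro rfl
          exact (mem_sdiff.1 hy).2 hx
        obtain ⟨T, hT, o, c1, c2⟩ := join_bound G X (S \ X) hXne hYne disjoint_sdiff hj
        rw [union_sdiff_of_subset hX] at hT c2
        exact ⟨T, hT, o, by omega⟩

end Parity

/-! ### The extremal graphs -/

/-- vertices `i` and `j` are adjacent iff they lie in the same class modulo `K` and the numbers
`i / K`, `j / K` are different modulo 3 -/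
def EG (n K : ℕ) : SimpleGraph (Fin n) where
  Adj i j := i.val % K = j.val % K ∧ (i.val / K) % 3 ≠ (j.val / K) % 3
  symm := ⟨fun _ _ h => ⟨h.1.symm, h.2.symm⟩⟩
  loopless := ⟨fun _ h => h.2 rfl⟩

theorem EG_adj (n K : ℕ) (i j : Fin n) : (EG n K).Adj i j ↔
    (i.val % K = j.val % K ∧ (i.val / K) % 3 ≠ (j.val / K) % 3) := Iff.rfl

theorem EG_cograph (n K : ℕ) : IsCograph (EG n K) := by
  constructor
  intro f
  have h01 : (EG n K).Adj (f 0) (f 1) := by
    rw [f.map_adj_iff, SimpleGraph.pathGraph_adj]; decide
  have h12 : (EG n K).Adj (f 1) (f 2) := by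
    rw [f.map_adj_iff, SimpleGraph.pathGraph_adj]; decide
  have h23 : (EG n K).Adj (f 2) (f 3) := by
    rw [f.map_adj_iff, SimpleGraph.pathGraph_adj]; decide
  have h02 : ¬(EG n K).Adj (f 0) (f 2) := by
    rw [f.map_adj_iff, SimpleGraph.pathGraph_adj]; decide
  have h03 : ¬(EG n K).Adj (f 0) (f 3) := by
    rw [f.map_adj_iff, SimpleGraph.pathGraph_adj]; decide
  rw [EG_adj] at h01 h12 h23 h02 h03
  omega

theorem EG_noiso (n K : ℕ) (hK : 0 < K) (hn : 2 * K ≤ n) (v : Fin n) :
    ∃ w, (EG n K).Adj v w := by
  have hr : v.val % K < K := Nat.mod_lt _ hK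
  by_cases h : (v.val / K) % 3 = 0
  · refine ⟨⟨v.val % K + K, by omega⟩, ?_⟩
    rw [EG_adj]
    refine ⟨?_, ?_⟩
    · simp
    · have : (v.val % K + K) / K = 1 := by
        rw [Nat.add_div_right _ hK, Nat.div_eq_of_lt hr]
      simp only [this]
      omega
  · refine ⟨⟨v.val % K, by omega⟩, ?_⟩
    rw [EG_adj]
    refine ⟨by simp, ?_⟩
    simp only [Nat.div_eq_of_lt hr]
    exact h

/-- in a class an odd set has at most two vertices -/
theorem EG_class (n K : ℕ) (hn : n ≤ 6 * K) (S : Finset (Fin n)) (hS : OddOn (EG n K) S)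
    (g : ℕ) : (S.filter (fun i => i.val % K = g)).card ≤ 2 := by
  set F : ℕ → Finset (Fin n) := fun c => S.filter (fun i => i.val % K = g ∧ (i.val / K) % 3 = c)
    with hF
  have hK : 0 < K ∨ n = 0 := by omega
  have hF2 : ∀ c, (F c).card ≤ 2 := by
    intro c
    rcases hK with hK | hK
    · calc (F c).card ≤ ({c, c + 3} : Finset ℕ).card := by
            apply card_le_card_of_injOn (fun i => i.val / K)
            · intro i hi
              simp only [hF, mem_coe, mem_filter] at hi
              have h6 : i.val / K < 6 := by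
                rw [Nat.div_lt_iff_lt_mul hK]
                have := i.isLt
                omega
              have h3 := hi.2.2
              have h7 : i.val / K = c ∨ i.val / K = c + 3 := by
                generalize i.val / K = q at h3 h6
                omega
              simpa using h7
            · intro i hi j hj hij
              simp only [hF, mem_coe, mem_filter] at hi hj
              simp only at hij
              apply Fin.ext
              rw [← Nat.div_add_mod i.val K, ← Nat.div_add_mod j.val K, hij, hi.2.1, hj.2.1]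
        _ ≤ 2 := card_le_two
    · subst hK
      have : F c = ∅ := by
        apply eq_empty_of_forall_notMem
        intro i; exact i.elim0
      rw [this]; simp
  have hun : S.filter (fun i => i.val % K = g) = F 0 ∪ F 1 ∪ F 2 := by
    ext i
    simp only [hF, mem_union, mem_filter]
    constructor
    · rintro ⟨h1, h2⟩
      have : (i.val / K) % 3 < 3 := Nat.mod_lt _ (by norm_num)
      have h3 : (i.val / K) % 3 = 0 ∨ (i.val / K) % 3 = 1 ∨ (i.val / K) % 3 = 2 := by omega
      tauto
    · tauto
  have hdis : ∀ c d, c ≠ d → Disjoint (F c) (F d) := by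
    intro c d hcd
    rw [disjoint_left]
    intro i hi hj
    simp only [hF, mem_filter] at hi hj
    omega
  have hdeg : ∀ c d e, c ≠ d → c ≠ e → d ≠ e → c < 3 → d < 3 → e < 3 → ∀ i ∈ F c,
      (S.filter (fun w => (EG n K).Adj i w)) = F d ∪ F e := by
    intro c d e hcd hce hde hc hd he i hi
    ext j
    simp only [hF, mem_union, mem_filter, EG_adj] at hi ⊢
    have : (j.val / K) % 3 < 3 := Nat.mod_lt _ (by norm_num)
    have h3 : (j.val / K) % 3 = c ∨ (j.val / K) % 3 = d ∨ (j.val / K) % 3 = e := by omega
    constructor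
    · rintro ⟨h1, h2, h4⟩
      rcases h3 with h3 | h3 | h3
      · omega
      · left; exact ⟨h1, by omega, h3⟩
      · right; exact ⟨h1, by omega, h3⟩
    · rintro (⟨h1, h2, h4⟩ | ⟨h1, h2, h4⟩)
      · exact ⟨h1, by omega, by omega⟩
      · exact ⟨h1, by omega, by omega⟩
  have hodd : ∀ c d e, c ≠ d → c ≠ e → d ≠ e → c < 3 → d < 3 → e < 3 → 0 < (F c).card →
      Odd ((F d).card + (F e).card) := by
    intro c d e hcd hce hde hc hd he hpos
    obtain ⟨i, hi⟩ := card_pos.1 hpos
    have h1 := hS i (mem_filter.1 hi).1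
    rw [hdeg c d e hcd hce hde hc hd he i hi, card_union_of_disjoint (hdis d e hde)] at h1
    exact h1
  have o0 := hodd 0 1 2 (by norm_num) (by norm_num) (by norm_num) (by norm_num) (by norm_num)
    (by norm_num)
  have o1 := hodd 1 0 2 (by norm_num) (by norm_num) (by norm_num) (by norm_num) (by norm_num)
    (by norm_num)
  have o2 := hodd 2 0 1 (by norm_num) (by norm_num) (by norm_num) (by norm_num) (by norm_num)
    (by norm_num)
  have hcard : (S.filter (fun i => i.val % K = g)).card = (F 0).card + (F 1).card + (F 2).card := by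
    rw [hun, card_union_of_disjoint, card_union_of_disjoint (hdis 0 1 (by norm_num))]
    rw [disjoint_union_left]
    exact ⟨hdis 0 2 (by norm_num), hdis 1 2 (by norm_num)⟩
  rw [hcard]
  have f0 := hF2 0
  have f1 := hF2 1
  have f2 := hF2 2
  generalize (F 0).card = x at *
  generalize (F 1).card = y at *
  generalize (F 2).card = z at *
  simp only [Nat.odd_iff] at o0 o1 o2
  omega

theorem EG_upper (n K : ℕ) (hK : 0 < K) (hn : n ≤ 6 * K) (S : Finset (Fin n))
    (hS : OddOn (EG n K) S) : S.card ≤ 2 * K := by
  have h := card_eq_sum_card_fiberwise (s := S) (t := range K) (f := fun i : Fin n => i.val % K)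
    (by
      intro i _
      simp only [coe_range, Set.mem_Iio]
      exact Nat.mod_lt _ hK)
  rw [h]
  calc ∑ g ∈ range K, (S.filter (fun i : Fin n => i.val % K = g)).card ≤ ∑ _g ∈ range K, 2 :=
        sum_le_sum (fun g _ => EG_class n K hn S hS g)
    _ = 2 * K := by simp [mul_comm]

theorem bdd {n : ℕ} (G : SimpleGraph (Fin n)) :
    BddAbove {k : ℕ | ∃ S : Finset (Fin n), OddOn G S ∧ S.card = k} := by
  refine ⟨n, ?_⟩
  rintro k ⟨S, _, rfl⟩
  simpa using card_le_univ S

theorem mos_ge {n : ℕ} (G : SimpleGraph (Fin n)) (hG : IsCograph G) (hiso : ∀ v, ∃ w, G.Adj v w) :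
    2 * ((n + 5) / 6) ≤ mos G := by
  have hP : NoP4 G univ := by
    intro a _ b _ c _ d _ hab hbc hcd hac had hbd nac nbd
    apply hG.false
    have nad : a ≠ d := by
      rintro rfl
      exact hac hcd.symm
    have e1 := hab.ne
    have e2 := hbc.ne
    have e3 := hcd.ne
    have t1 := hab.symm
    have t2 := hbc.symm
    have t3 := hcd.symm
    have t4 : ¬ G.Adj c a := fun h => hac h.symm
    have t5 : ¬ G.Adj d a := fun h => had h.symm
    have t6 : ¬ G.Adj d b := fun h => hbd h.symm
    have hinj : Function.Injective (![a, b, c, d] : Fin 4 → Fin n) := by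
      intro i j hij
      fin_cases i <;> fin_cases j <;>
        first
          | rfl
          | (exfalso
             simp only [Fin.zero_eta, Fin.mk_one, Fin.reduceFinMk, Matrix.cons_val] at hij
             first
               | exact absurd hij (by assumption)
               | exact absurd hij.symm (by assumption))
    have hadj : ∀ i j : Fin 4, G.Adj ((![a, b, c, d] : Fin 4 → Fin n) i)
        ((![a, b, c, d] : Fin 4 → Fin n) j) ↔ (SimpleGraph.pathGraph 4).Adj i j := by
      intro i j
      rw [SimpleGraph.pathGraph_adj]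
      fin_cases i <;> fin_cases j <;> simp [hab, hbc, hcd, hac, had, hbd, t1, t2, t3, t4, t5, t6]
    exact ⟨⟨![a, b, c, d], hinj⟩, fun {i j} => hadj i j⟩
  obtain ⟨T, _, hT, hc⟩ := lower n G univ (by simp) hP (by
    intro v _
    obtain ⟨w, hw⟩ := hiso v
    exact ⟨w, mem_univ _, hw⟩)
  have hle : T.card ≤ mos G := le_csSup (bdd G) ⟨T, hT, rfl⟩
  have hev := oddOn_even_card hT
  rw [card_univ, Fintype.card_fin] at hc
  obtain ⟨r, hr⟩ := hev
  omega

/-- **Answer to Q1.** For every `n ≥ 2` the minimum of `mos G` over all cographs `G` on `n` vertices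
without isolated vertices is `2 ⌈n / 6⌉`. -/
theorem result (n : ℕ) (hn : 2 ≤ n) : m n = 2 * ⌈(n : ℚ) / 6⌉₊ := by
  have hceil : ⌈(n : ℚ) / 6⌉₊ = (n + 5) / 6 := by
    rw [Nat.ceil_eq_iff (by omega)]
    have h1 : 6 * ((n + 5) / 6) ≤ n + 5 := Nat.mul_div_le _ _
    have h2 : n + 5 < 6 * ((n + 5) / 6 + 1) := by omega
    constructor
    · rw [lt_div_iff₀ (by norm_num)]
      have h3 : ((n + 5) / 6 - 1) * 6 < n := by omega
      exact_mod_cast h3
    · rw [div_le_iff₀ (by norm_num)]
      have h3 : n ≤ ((n + 5) / 6) * 6 := by omega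
      exact_mod_cast h3
  rw [hceil]
  set K := (n + 5) / 6 with hK
  have hmem : mos (EG n K) ∈ {k : ℕ | ∃ G : SimpleGraph (Fin n), IsCograph G ∧
      (∀ v, ∃ w, G.Adj v w) ∧ mos G = k} :=
    ⟨EG n K, EG_cograph n K, EG_noiso n K (by omega) (by omega), rfl⟩
  apply le_antisymm
  · refine (Nat.sInf_le hmem).trans ?_
    have hne : {k : ℕ | ∃ S : Finset (Fin n), OddOn (EG n K) S ∧ S.card = k}.Nonempty :=
      ⟨0, ∅, fun v hv => absurd hv (notMem_empty v), card_empty⟩
    refine csSup_le hne ?_
    rintro k ⟨S, hS, rfl⟩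
    exact EG_upper n K (by omega) (by omega) S hS
  · refine le_csInf ⟨_, hmem⟩ ?_
    rintro k ⟨G, hG, hiso, rfl⟩
    exact mos_ge G hG hiso

end Pool.Agent.Results.MP_007251_co.MinOddInduced
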